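import Pool.Agent.J6H80.SG.Defs

/-!
# Breaker traps a path in `ℕ³` within eight levels

`W k x D`: in the game in which Maker walks upwards from `x` along unit steps, does not step on `D`,
and Breaker adds one point to `D` after each step, Breaker can prevent `k + 1` steps with points of
the levels up to `|x| + k + 1`, Maker moving first.
-/

set_option autoImplicit false

namespace Pool.Agent.J6H80.SG

/-- the unit vectors of `ℕ³` -/
def e (i : Fin 3) : Fin 3 → ℕ := Pi.single i 1

/-- the level of a point -/
def lv (x : Fin 3 → ℕ) : ℕ := x 0 + x 1 + x 2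

/-- Breaker can prevent `k + 1` steps. -/
def W : ℕ → (Fin 3 → ℕ) → Set (Fin 3 → ℕ) → Prop
  | 0, x, D => ∀ i, x + e i ∈ D
  | k + 1, x, D => ∀ i, x + e i ∈ D ∨ ∃ b, lv b ≤ lv x + k + 2 ∧ W k (x + e i) (insert b D)

theorem W.mono {k : ℕ} {x : Fin 3 → ℕ} {D D' : Set (Fin 3 → ℕ)} (h : D ⊆ D') (hW : W k x D) :
    W k x D' := by
  induction k generalizing x D D' with
  | zero => exact fun i => h (hW i)
  | succ k ih =>
    intro i
    rcases hW i with h1 | ⟨b, h1, h2⟩
    · exact Or.inl (h h1)
    · exact Or.inr ⟨b, h1, ih (Set.insert_subset_insert h) h2⟩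

/-- The answers of Breaker, nine bits each; the answer number `3 i + j + 1` is that to the step
in the direction `j` after the history number `i`. -/
def answers : ℕ :=
  0x70aa141c1c4621518000707118000000118000000118004600000000000000000005446930024c001511a4c00000024c00000024c0093000000000000009a0026800000000000005b0016c000000000000000000000000000000000000001511a4c00930005446930000000930000000930024c000000000000000000382a4d00134000e0a9342318a8534a10000134004d000000000000005400150000000000000031000c400000000000000000000000000000000000000000000000000000000000000000000000000000000000000000000000000000000000000000000000000000000000000000000000000000000000000000000000000000000000000000000000000000000000000000000001c1c4605446934624c001511a4c00000024c00000024c00930000000000000000000e0a934004d000382a4d00000004d00000004d001340000000000000150005400000000000000c40031000000000000000000000000000000000000000382a4d00134000e0a934000000134000000134004d00000000000000000008c62a100284002318a8454385428550000028400a100000000000000b6002d8000000000000069001a40000000000000000000000000000000000000000000000000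00000000000000000000000000000000000000000000000000000000000000000000000000000000000000000000000000000000000000000000000000000000000000000000000000000000000000000000118a8c42a001268549c0c000049800000049800008549c0d260000000000000001180000001180000000000000000000000000000085000000085000000000000000069311a54200001a40000001a40000311a54269000000000000000000000000000000000000000000000000000000000000000000000000000000000000000000000000000000000000000000000000000000000000000000000000000000000000000000000000000000000000000000000000000000000000069311a54200001a40000001a40000311a54269000000000000000065800000065800000000000000000000000000002920000002920000000000000002230388e04000088800000088800010388e062200a850aa1c00705508150014c8a5361800384c0e000b44c2d3288a5361930b4ca61b2800000e13038002d130b4ca0008ca62315264a66168930b4ca29985a2ca688008a5361930b4ca61b28004c2d328a66168b29a20000000000000000000000054388b0e000b44c2d32800232988c006129985a24c2d328a66168b29a2000008ca62300184a66168800545a150c5405a34360a66168968d0d868b60004c2d328a66168b29a20029985a25a34361a2d8000000000000000000000010a5362130b4ca62328004c2d328b4004ca2d33090022e068b4cc26070900130b4ca2d001328b4cc24000000000000000000008b4cc2532006c329b1480022e068b4cc2607090022d33094c801b0ca6c52000caa1329b148a1443024609a10181a45a3126c206069161334a65269a64930a6c2299699200000009a1a4584c429249a69921310a4834705026942d029969925a30b40000000134a6c249965a48349405165965000000065262128349405a49888b0a21882696d085431265089900150c48b2d9a5408b5000118538514c011065c4292542da04b6624432ca10a45a65a292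

/-- the answer number `i` -/
def ans (i : ℕ) : ℕ := (answers >>> (9 * i)) % 512

/-- one step of the verification, in the direction with the code `s`, number `j` -/
def chkStep (f : ℕ → ℕ → ℕ → Bool) (c i D s j : ℕ) : Bool :=
  D.testBit (c + s) ||
    (let b := ans (3 * i + j + 1)
     decide (b / 64 + b / 8 % 8 + b % 8 ≤ 7) && f (c + s) (3 * i + j + 1) (D ||| (1 <<< b)))

/-- The verification of the answers: `c` is the position of Maker, `i` the number of the history,
`D` the set of the points of Breaker. The point `u` has the code `64 u₀ + 8 u₁ + u₂`. -/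
def chk : ℕ → ℕ → ℕ → ℕ → Bool
  | 0, c, _, D => D.testBit (c + 64) && D.testBit (c + 8) && D.testBit (c + 1)
  | k + 1, c, i, D => chkStep (chk k) c i D 64 0 && chkStep (chk k) c i D 8 1 &&
      chkStep (chk k) c i D 1 2

theorem chk_ok : chk 6 0 0 (1 <<< 146) = true := by decide +kernel

/-- the code of a point -/
def code (u : Fin 3 → ℕ) : ℕ := 64 * u 0 + 8 * u 1 + u 2

/-- the points with the codes in `D`, translated by `x` -/
def pts (x : Fin 3 → ℕ) (D : ℕ) : Set (Fin 3 → ℕ) :=
  {z | ∃ u, lv u ≤ 7 ∧ D.testBit (code u) = true ∧ z = x + u}

theorem lv_add (x y : Fin 3 → ℕ) : lv (x + y) = lv x + lv y := by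
  simp only [lv, Pi.add_apply]
  omega

theorem lv_e (i : Fin 3) : lv (e i) = 1 := by
  fin_cases i <;> simp [lv, e, Pi.single_apply]

theorem code_add (x y : Fin 3 → ℕ) : code (x + y) = code x + code y := by
  simp only [code, Pi.add_apply]
  omega

theorem code_e0 : code (e 0) = 64 := by simp [code, e, Pi.single_apply]

theorem code_e1 : code (e 1) = 8 := by simp [code, e, Pi.single_apply]

theorem code_e2 : code (e 2) = 1 := by simp [code, e, Pi.single_apply]

/-- the point with the code `b` -/
def pt (b : ℕ) : Fin 3 → ℕ := ![b / 64, b / 8 % 8, b % 8]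

theorem lv_pt (b : ℕ) : lv (pt b) = b / 64 + b / 8 % 8 + b % 8 := by
  simp only [lv, pt, Matrix.cons_val_zero, Matrix.cons_val_one, Matrix.cons_val]

theorem pt_code {u : Fin 3 → ℕ} (hu : lv u ≤ 7) : pt (code u) = u := by
  simp only [lv, code] at *
  funext i
  fin_cases i
  · show (64 * u 0 + 8 * u 1 + u 2) / 64 = u 0
    omega
  · show (64 * u 0 + 8 * u 1 + u 2) / 8 % 8 = u 1
    omega
  · show (64 * u 0 + 8 * u 1 + u 2) % 8 = u 2
    omega

theorem pts_or (x : Fin 3 → ℕ) (D b : ℕ) :
    pts x (D ||| (1 <<< b)) ⊆ insert (x + pt b) (pts x D) := by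
  rintro z ⟨u, hu, h1, rfl⟩
  rw [Nat.testBit_or, Bool.or_eq_true] at h1
  rcases h1 with h1 | h1
  · exact Or.inr ⟨u, hu, h1, rfl⟩
  · left
    have h2 : code u = b := by
      rw [Nat.one_shiftLeft, Nat.testBit_two_pow] at h1
      exact (of_decide_eq_true h1).symm
    rw [← h2, pt_code hu]

theorem chkStep_sound {f : ℕ → ℕ → ℕ → Bool} {k : ℕ} {x u : Fin 3 → ℕ} {i D : ℕ} (j : Fin 3)
    (hu : lv u + (k + 1) + 1 = 7)
    (hf : ∀ (w : Fin 3 → ℕ) (i D : ℕ), lv w + k + 1 = 7 → f (code w) i D = true →
      W k (x + w) (pts x D))
    (h : chkStep f (code u) i D (code (e j)) j = true) :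
    x + u + e j ∈ pts x D ∨
      ∃ b, lv b ≤ lv (x + u) + k + 2 ∧ W k (x + u + e j) (insert b (pts x D)) := by
  have hj := lv_e j
  rw [chkStep, ← code_add, Bool.or_eq_true, Bool.and_eq_true] at h
  rcases h with h | ⟨h1, h2⟩
  · refine Or.inl ⟨u + e j, ?_, h, (add_assoc x u (e j))⟩
    rw [lv_add]
    omega
  · right
    have h3 := of_decide_eq_true h1
    refine ⟨x + pt (ans (3 * i + j + 1)), ?_, ?_⟩
    · rw [lv_add, lv_add, lv_pt]
      omega
    · have h4 := hf (u + e j) _ _ (by rw [lv_add]; omega) h2
      rw [← add_assoc] at h4
      exact h4.mono (pts_or x D _)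

theorem chk_sound (x : Fin 3 → ℕ) (k : ℕ) : ∀ (u : Fin 3 → ℕ) (i D : ℕ), lv u + k + 1 = 7 →
    chk k (code u) i D = true → W k (x + u) (pts x D) := by
  induction k with
  | zero =>
    intro u i D hu h
    have h1 : D.testBit (code u + 64) = true ∧ D.testBit (code u + 8) = true ∧
        D.testBit (code u + 1) = true := by
      have h2 : (D.testBit (code u + 64) && D.testBit (code u + 8) &&
        D.testBit (code u + 1)) = true := h
      rw [Bool.and_eq_true, Bool.and_eq_true] at h2
      exact ⟨h2.1.1, h2.1.2, h2.2⟩
    have h3 : ∀ j, D.testBit (code u + code (e j)) = true → x + u + e j ∈ pts x D := by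
      intro j hj
      refine ⟨u + e j, ?_, ?_, add_assoc x u (e j)⟩
      · rw [lv_add, lv_e]
        omega
      · rw [code_add]
        exact hj
    intro j
    fin_cases j
    · exact h3 0 (by rw [code_e0]; exact h1.1)
    · exact h3 1 (by rw [code_e1]; exact h1.2.1)
    · exact h3 2 (by rw [code_e2]; exact h1.2.2)
  | succ k ih =>
    intro u i D hu h
    have h2 : (chkStep (chk k) (code u) i D 64 0 && chkStep (chk k) (code u) i D 8 1 &&
      chkStep (chk k) (code u) i D 1 2) = true := h
    rw [Bool.and_eq_true, Bool.and_eq_true] at h2
    intro j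
    fin_cases j
    · exact chkStep_sound (f := chk k) (i := i) 0 hu ih (by rw [code_e0]; exact h2.1.1)
    · exact chkStep_sound (f := chk k) (i := i) 1 hu ih (by rw [code_e1]; exact h2.1.2)
    · exact chkStep_sound (f := chk k) (i := i) 2 hu ih (by rw [code_e2]; exact h2.2)

/-- With one point Breaker can prevent seven steps from any point. -/
theorem W_root (x : Fin 3 → ℕ) : ∃ b, lv b ≤ lv x + 7 ∧ W 6 x {b} := by
  refine ⟨x + pt 146, ?_, ?_⟩
  · rw [lv_add, lv_pt]
    omega
  · have h1 := chk_sound x 6 0 0 (1 <<< 146) (by simp [lv])
      (by rw [show code (0 : Fin 3 → ℕ) = 0 by simp [code]]; exact chk_ok)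
    rw [add_zero] at h1
    refine h1.mono ?_
    rintro z hz
    have h2 : pts x (1 <<< 146) ⊆ insert (x + pt 146) (pts x 0) := by
      have h3 := pts_or x 0 146
      rwa [Nat.zero_or] at h3
    rcases h2 hz with h3 | ⟨u, -, h4, -⟩
    · exact h3
    · simp at h4

end Pool.Agent.J6H80.SG
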