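import Mathlib

/-!
# The sequence game on a poset

Positions are the lists of the elements claimed so far, the latest first. Maker moves first, so she
has made the moves with an even number of earlier moves.
-/

set_option autoImplicit false

namespace Pool.Agent.J6H80.SG

variable {P : Type*}

/-- The elements claimed by Maker, the latest first. -/
def makerMoves : List P → List P
  | [] => []
  | x :: l => if l.length % 2 = 0 then x :: makerMoves l else makerMoves l

/-- Maker's score in the sequence game: the largest `k` such that Maker has claimed elements
`y₁ < y₂ < ... < y_k`, in this order in time. -/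
noncomputable def seqScore [Preorder P] (l : List P) : ℕ :=
  sSup {k | ∃ c : List P, c.Sublist (makerMoves l) ∧ c.Pairwise (· > ·) ∧ c.length = k}

/-- The play is over: every element has been claimed, exactly once. -/
def Complete (l : List P) : Prop := l.Nodup ∧ ∀ x, x ∈ l

/-- A rule which claims an unclaimed element in every position that has one. -/
def IsStrategy (σ : List P → P) : Prop := ∀ l, (∃ x, x ∉ l) → σ l ∉ l

/-- In the play `l` the moves number `e`, `e + 2`, `e + 4`, ... (the first move is number `0`) are
those of the strategy `σ`. Maker has `e = 0`, Breaker has `e = 1`. -/
def Follows (e : ℕ) (σ : List P → P) (l : List P) : Prop :=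
  ∀ x m, (x :: m) <:+ l → m.length % 2 = e → x = σ m

/-- Maker can guarantee the score `s` in the sequence game on `P` against every play of Breaker. -/
def Guarantees (P : Type*) [Preorder P] (s : ℕ) : Prop :=
  ∃ σ : List P → P, IsStrategy σ ∧ ∀ l, Complete l → Follows 0 σ l → s ≤ seqScore l

/-- The largest score that Maker can guarantee in the sequence game on `P`. -/
noncomputable def gSeq (P : Type*) [Preorder P] : ℕ := sSup {s | Guarantees P s}

/-- The poset `Q^d_n` of the problem: the `x ∈ ℕ^d` with coordinate sum at most `n`, ordered
componentwise. -/
abbrev Q (d n : ℕ) : Type := {x : Fin d → ℕ // ∑ j, x j ≤ n}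

end Pool.Agent.J6H80.SG
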