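import Pool.Agent.J6H80.SG.Cert

/-!
# Breaker's strategy in the sequence game on `Q^3_n`
-/

set_option autoImplicit false

namespace Pool.Agent.J6H80.SG

variable {n : ℕ}

/-- The elements of the list `m` of moves of Maker (latest first) at which a saturated chain ends
that begins at a level divisible by `8` and was claimed in this order. -/
def live : List (Q 3 n) → Set (Q 3 n)
  | [] => ∅
  | x :: m => live m ∪
      {y | y = x ∧ (8 ∣ lv x.1 ∨ ∃ z ∈ live m, z < x ∧ lv x.1 = lv z.1 + 1)}

/-- the claimed points -/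
def claimed (l : List (Q 3 n)) : Set (Fin 3 → ℕ) := {z | ∃ p ∈ l, p.1 = z}

theorem claimed_mono {l l' : List (Q 3 n)} (h : ∀ x ∈ l, x ∈ l') : claimed l ⊆ claimed l' :=
  fun _ ⟨p, hp, hz⟩ => ⟨p, h p hp, hz⟩

/-- Maker to move: Breaker can stop all chains within their windows. -/
def Inv (l : List (Q 3 n)) : Prop :=
  ∀ x ∈ live (makerMoves l), 8 * (lv x.1 / 8) + 7 ≤ n →
    lv x.1 % 8 ≤ 6 ∧ W (6 - lv x.1 % 8) x.1 (claimed l)

/-- No chain has all levels of a window. -/
def NoTop (l : List (Q 3 n)) : Prop := ∀ x ∈ live (makerMoves l), lv x.1 % 8 ≠ 7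

theorem lv_le (x : Q 3 n) : lv x.1 ≤ n := by
  have h := x.2
  rw [Fin.sum_univ_three] at h
  exact h

theorem Inv.noTop {l : List (Q 3 n)} (h : Inv l) : NoTop l := by
  intro x hx h7
  have h1 := lv_le x
  have h2 := (h x hx (by omega)).1
  omega

theorem exists_e {x z : Fin 3 → ℕ} (h : z ≤ x) (h1 : lv x = lv z + 1) : ∃ i, x = z + e i := by
  have h0 : z 0 ≤ x 0 := h 0
  have h2 : z 1 ≤ x 1 := h 1
  have h3 : z 2 ≤ x 2 := h 2
  simp only [lv] at h1
  have h4 : (x 0 = z 0 + 1 ∧ x 1 = z 1 ∧ x 2 = z 2) ∨ (x 0 = z 0 ∧ x 1 = z 1 + 1 ∧ x 2 = z 2) ∨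
      (x 0 = z 0 ∧ x 1 = z 1 ∧ x 2 = z 2 + 1) := by omega
  rcases h4 with ⟨a, b, c⟩ | ⟨a, b, c⟩ | ⟨a, b, c⟩
  · refine ⟨0, ?_⟩
    funext j
    fin_cases j <;> simp [e, Pi.single_apply, a, b, c]
  · refine ⟨1, ?_⟩
    funext j
    fin_cases j <;> simp [e, Pi.single_apply, a, b, c]
  · refine ⟨2, ?_⟩
    funext j
    fin_cases j <;> simp [e, Pi.single_apply, a, b, c]

theorem makerMoves_even {P : Type*} {l : List P} (h : l.length % 2 = 0) (x : P) :
    makerMoves (x :: l) = x :: makerMoves l := by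
  rw [makerMoves, if_pos h]

theorem makerMoves_odd {P : Type*} {l : List P} (h : l.length % 2 = 1) (x : P) :
    makerMoves (x :: l) = makerMoves l := by
  rw [makerMoves, if_neg (by omega)]

/-- The answer to the move `x`. -/
theorem step {l : List (Q 3 n)} (hI : Inv l) (hl : l.length % 2 = 0) {x : Q 3 n} (hx : x ∉ l) :
    NoTop (x :: l) ∧ ∃ b : Q 3 n, ∀ y : Q 3 n, (y = b ∨ b ∈ x :: l) → Inv (y :: x :: l) := by
  have hm := makerMoves_even hl x
  -- the new chains
  have key : (8 ∣ lv x.1 ∨ ∃ z ∈ live (makerMoves l), z < x ∧ lv x.1 = lv z.1 + 1) →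
      8 * (lv x.1 / 8) + 7 ≤ n → lv x.1 % 8 ≤ 6 ∧
        ∃ b, lv b ≤ 8 * (lv x.1 / 8) + 7 ∧ W (6 - lv x.1 % 8) x.1 (insert b (claimed l)) := by
    intro h hn
    by_cases h8 : 8 ∣ lv x.1
    · obtain ⟨b, hb1, hb2⟩ := W_root x.1
      have h1 : lv x.1 % 8 = 0 := Nat.mod_eq_zero_of_dvd h8
      refine ⟨by omega, b, by omega, ?_⟩
      rw [h1]
      exact hb2.mono (by
        intro z hz
        exact Or.inl hz)
    · obtain ⟨z, hz, hzx, h1⟩ := h.resolve_left h8
      have h2 := hI z hz (by omega)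
      have h3 : lv z.1 % 8 + 1 = lv x.1 % 8 := by omega
      obtain ⟨i, hi⟩ := exists_e (le_of_lt hzx : z.1 ≤ x.1) h1
      have hxc : x.1 ∉ claimed l := by
        rintro ⟨p, hp, hpx⟩
        rw [← Subtype.ext hpx] at hx
        exact hx hp
      by_cases h6 : lv x.1 % 8 ≤ 6
      · refine ⟨h6, ?_⟩
        obtain ⟨k, hk⟩ : ∃ k, 6 - lv z.1 % 8 = k + 1 := ⟨5 - lv z.1 % 8, by omega⟩
        have h4 := h2.2
        rw [hk] at h4
        rcases h4 i with h5 | ⟨b, hb1, hb2⟩
        · rw [← hi] at h5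
          exact absurd h5 hxc
        · refine ⟨b, by omega, ?_⟩
          rw [← hi] at hb2
          rw [show 6 - lv x.1 % 8 = k by omega]
          exact hb2
      · exfalso
        have h4 := h2.2
        rw [show 6 - lv z.1 % 8 = 0 by omega] at h4
        have h5 := h4 i
        rw [← hi] at h5
        exact hxc h5
  constructor
  · intro y hy h7
    rw [hm] at hy
    rcases hy with hy | ⟨rfl, hy⟩
    · exact hI.noTop y hy h7
    · have h1 := lv_le y
      have h2 := (key hy (by omega)).1
      omega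
  · by_cases hn : (8 ∣ lv x.1 ∨ ∃ z ∈ live (makerMoves l), z < x ∧ lv x.1 = lv z.1 + 1) ∧
      8 * (lv x.1 / 8) + 7 ≤ n
    · obtain ⟨h6, b, hb1, hb2⟩ := key hn.1 hn.2
      refine ⟨⟨b, ?_⟩, ?_⟩
      · rw [Fin.sum_univ_three]
        exact hb1.trans hn.2
      · intro y hy w hw hwn
        rw [makerMoves_odd (by rw [List.length_cons]; omega), hm] at hw
        rcases hw with hw | ⟨rfl, -⟩
        · obtain ⟨h1, h2⟩ := hI w hw hwn
          exact ⟨h1, h2.mono (claimed_mono fun p hp => by simp [hp])⟩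
        · refine ⟨h6, hb2.mono ?_⟩
          intro z hz
          rcases hz with rfl | hz
          · rcases hy with rfl | hy
            · exact ⟨_, List.mem_cons_self, rfl⟩
            · exact ⟨_, List.mem_cons_of_mem _ hy, rfl⟩
          · exact claimed_mono (fun p hp => by simp [hp]) hz
    · refine ⟨x, ?_⟩
      intro y _ w hw hwn
      rw [makerMoves_odd (by rw [List.length_cons]; omega), hm] at hw
      rcases hw with hw | ⟨rfl, hw⟩
      · obtain ⟨h1, h2⟩ := hI w hw hwn
        exact ⟨h1, h2.mono (claimed_mono fun p hp => by simp [hp])⟩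
      · exact absurd ⟨hw, hwn⟩ hn

/-- an unclaimed element, if there is one -/
noncomputable def other (o : Q 3 n) (l : List (Q 3 n)) : Q 3 n :=
  open Classical in if h : ∃ x, x ∉ l then h.choose else o

theorem other_spec (o : Q 3 n) {l : List (Q 3 n)} (h : ∃ x, x ∉ l) : other o l ∉ l := by
  rw [other, dif_pos h]
  exact h.choose_spec

open Classical in
/-- Breaker's strategy. -/
noncomputable def brk (o : Q 3 n) : List (Q 3 n) → Q 3 n
  | [] => o
  | x :: l =>
    if h : ∃ b : Q 3 n, ∀ y : Q 3 n, (y = b ∨ b ∈ x :: l) → Inv (y :: x :: l) then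
      if h.choose ∈ x :: l then other o (x :: l) else h.choose
    else other o (x :: l)

theorem brk_isStrategy (o : Q 3 n) : IsStrategy (brk o) := by
  intro l hl
  cases l with
  | nil => simp
  | cons x l =>
    rw [brk]
    split_ifs with h h1
    · exact other_spec o hl
    · exact h1
    · exact other_spec o hl

theorem brk_inv (o : Q 3 n) (l : List (Q 3 n)) (hl : l.Nodup) (hf : Follows 1 (brk o) l) :
    (l.length % 2 = 0 → Inv l) ∧ NoTop l := by
  induction hk : l.length using Nat.strong_induction_on generalizing l with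
  | _ k ih =>
  match l, hl, hf, hk with
  | [], _, _, hk =>
    have h1 : Inv ([] : List (Q 3 n)) := by
      intro x hx
      exact absurd hx (by simp [makerMoves, live])
    exact ⟨fun _ => h1, h1.noTop⟩
  | [x], hl, hf, hk =>
    have h1 : Inv ([] : List (Q 3 n)) := by
      intro x hx
      exact absurd hx (by simp [makerMoves, live])
    refine ⟨fun h => ?_, (step h1 (by simp) (by simp)).1⟩
    rw [← hk] at h
    simp at h
  | x :: z :: l, hl, hf, hk =>
    have hl1 : (z :: l).Nodup := (List.nodup_cons.1 hl).2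
    have hl2 : l.Nodup := (List.nodup_cons.1 hl1).2
    have hf1 : Follows 1 (brk o) (z :: l) := fun a m h => hf a m (h.trans (List.suffix_cons _ _))
    have hf2 : Follows 1 (brk o) l := fun a m h => hf1 a m (h.trans (List.suffix_cons _ _))
    rw [List.length_cons, List.length_cons] at hk
    have i1 := ih (l.length + 1) (by omega) (z :: l) hl1 hf1 (by simp)
    have i2 := ih l.length (by omega) l hl2 hf2 rfl
    by_cases hp : l.length % 2 = 0
    · have h1 := step (i2.1 hp) hp (List.nodup_cons.1 hl1).1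
      have h2 := hf x (z :: l) (List.suffix_refl _) (by rw [List.length_cons]; omega)
      have h3 : Inv (x :: z :: l) := by
        rw [brk, dif_pos h1.2] at h2
        refine h1.2.choose_spec x ?_
        split_ifs at h2 with h4
        · exact Or.inr h4
        · exact Or.inl h2
      exact ⟨fun _ => h3, h3.noTop⟩
    · refine ⟨fun h => absurd h (by omega), ?_⟩
      exact (step (i1.1 (by omega)) (by rw [List.length_cons]; omega)
        (List.nodup_cons.1 hl).1).1

theorem lv_lt {x y : Q 3 n} (h : x < y) : lv x.1 < lv y.1 := by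
  have h1 : x.1 ≤ y.1 := le_of_lt h
  have h2 : ¬ y.1 ≤ x.1 := fun h3 => absurd (le_antisymm h1 h3) (fun h4 => h.ne (Subtype.ext h4))
  by_contra h5
  apply h2
  have a0 : x.1 0 ≤ y.1 0 := h1 0
  have a1 : x.1 1 ≤ y.1 1 := h1 1
  have a2 : x.1 2 ≤ y.1 2 := h1 2
  simp only [lv] at h5
  intro i
  fin_cases i
  · show y.1 0 ≤ x.1 0
    omega
  · show y.1 1 ≤ x.1 1
    omega
  · show y.1 2 ≤ x.1 2
    omega

theorem live_of_chain (m : List (Q 3 n)) : ∀ c : List (Q 3 n), c.Sublist m → c.Pairwise (· > ·) →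
    ∀ x ∈ c, (∀ t, 8 * (lv x.1 / 8) ≤ t → t ≤ lv x.1 → ∃ y ∈ c, lv y.1 = t) → x ∈ live m := by
  induction m with
  | nil =>
    intro c hc _ x hx
    rw [List.sublist_nil.1 hc] at hx
    simp at hx
  | cons a m ih =>
    intro c hc hp x hx ht
    rcases List.sublist_cons_iff.1 hc with h | ⟨r, rfl, hr⟩
    · exact Or.inl (ih c h hp x hx ht)
    · rw [List.pairwise_cons] at hp
      have hlt : ∀ y ∈ r, lv y.1 < lv a.1 := fun y hy => lv_lt (hp.1 y hy)
      have hsub : ∀ z ∈ r, (∀ t, 8 * (lv z.1 / 8) ≤ t → t ≤ lv z.1 → ∃ y ∈ a :: r, lv y.1 = t) →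
          z ∈ live m := by
        intro z hz h
        refine ih r hr hp.2 z hz fun t h1 h2 => ?_
        obtain ⟨y, hy, hyt⟩ := h t h1 h2
        rcases List.mem_cons.1 hy with rfl | hy
        · have := hlt z hz
          omega
        · exact ⟨y, hy, hyt⟩
      rcases List.mem_cons.1 hx with rfl | hx
      · by_cases h8 : 8 ∣ lv x.1
        · exact Or.inr ⟨rfl, Or.inl h8⟩
        · obtain ⟨z, hz, hzt⟩ := ht (lv x.1 - 1) (by omega) (by omega)
          rcases List.mem_cons.1 hz with rfl | hz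
          · omega
          · refine Or.inr ⟨rfl, Or.inr ⟨z, ?_, hp.1 z hz, by omega⟩⟩
            exact hsub z hz fun t h1 h2 => ht t (by omega) (by omega)
      · exact Or.inl (hsub x hx ht)

theorem score_le {l : List (Q 3 n)} (h : NoTop l) : seqScore l ≤ n + 1 - (n + 1) / 8 := by
  refine csSup_le' ?_
  rintro k ⟨c, hc, hp, rfl⟩
  -- the missing levels
  have h1 : ∀ j ∈ Finset.range ((n + 1) / 8), ∃ t, 8 * j ≤ t ∧ t ≤ 8 * j + 7 ∧
      ∀ y ∈ c, lv y.1 ≠ t := by
    intro j hj
    by_contra hcon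
    push Not at hcon
    obtain ⟨x, hx, hx7⟩ := hcon (8 * j + 7) (by omega) le_rfl
    have h2 : x ∈ live (makerMoves l) := live_of_chain _ c hc hp x hx fun t h3 h4 =>
      hcon t (by omega) (by omega)
    exact h x h2 (by omega)
  choose! f hf using h1
  have hnod : (c.map fun x => lv x.1).Nodup := by
    change List.Pairwise (· ≠ ·) _
    rw [List.pairwise_map]
    exact hp.imp fun hab => (lv_lt hab).ne'
  have hcard : (c.map fun x => lv x.1).toFinset.card = c.length := by
    rw [List.toFinset_card_of_nodup hnod, List.length_map]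
  have h2 : Disjoint (c.map fun x => lv x.1).toFinset ((Finset.range ((n + 1) / 8)).image f) := by
    rw [Finset.disjoint_left]
    intro t ht hti
    rw [List.mem_toFinset, List.mem_map] at ht
    obtain ⟨y, hy, hyt⟩ := ht
    obtain ⟨j, hj, rfl⟩ := Finset.mem_image.1 hti
    exact (hf j hj).2.2 y hy hyt
  have h3 : ((Finset.range ((n + 1) / 8)).image f).card = (n + 1) / 8 := by
    rw [Finset.card_image_of_injOn, Finset.card_range]
    intro i hi j hj hij
    have a1 := hf i (Finset.mem_coe.1 hi)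
    have a2 := hf j (Finset.mem_coe.1 hj)
    have hij' : f i = f j := hij
    omega
  have h4 : (c.map fun x => lv x.1).toFinset ∪ ((Finset.range ((n + 1) / 8)).image f) ⊆
      Finset.range (n + 1) := by
    intro t ht
    rcases Finset.mem_union.1 ht with ht | ht
    · rw [List.mem_toFinset, List.mem_map] at ht
      obtain ⟨y, hy, rfl⟩ := ht
      have := lv_le y
      rw [Finset.mem_range]
      omega
    · obtain ⟨j, hj, rfl⟩ := Finset.mem_image.1 ht
      have h5 := hf j hj
      rw [Finset.mem_range] at hj ⊢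
      omega
  have h5 := Finset.card_le_card h4
  rw [Finset.card_union_of_disjoint h2, hcard, h3, Finset.card_range] at h5
  omega

end Pool.Agent.J6H80.SG
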