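import Pool.Agent.J6H80.SG.Defs

/-!
# The value of the sequence game: a strategy of Breaker gives an upper bound
-/

set_option autoImplicit false

namespace Pool.Agent.J6H80.SG

variable {P : Type*}

/-- the play of two strategies -/
def play (σ τ : List P → P) : ℕ → List P
  | 0 => []
  | k + 1 => (if k % 2 = 0 then σ (play σ τ k) else τ (play σ τ k)) :: play σ τ k

theorem play_length (σ τ : List P → P) (k : ℕ) : (play σ τ k).length = k := by
  induction k with
  | zero => rfl
  | succ k ih => rw [play, List.length_cons, ih]

theorem exists_notMem [Finite P] {l : List P} (h : l.length < Nat.card P) : ∃ x, x ∉ l := by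
  classical
  haveI := Fintype.ofFinite P
  by_contra hcon
  push Not at hcon
  have h1 : (Finset.univ : Finset P) ⊆ l.toFinset := fun x _ => List.mem_toFinset.2 (hcon x)
  have h2 := (Finset.card_le_card h1).trans (List.toFinset_card_le l)
  rw [Finset.card_univ, ← Nat.card_eq_fintype_card] at h2
  omega

theorem play_nodup [Finite P] {σ τ : List P → P} (hσ : IsStrategy σ) (hτ : IsStrategy τ) (k : ℕ)
    (hk : k ≤ Nat.card P) : (play σ τ k).Nodup := by
  induction k with
  | zero => exact List.nodup_nil
  | succ k ih =>
    have h1 : ∃ x, x ∉ play σ τ k := exists_notMem (by rw [play_length]; omega)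
    rw [play, List.nodup_cons]
    refine ⟨?_, ih (by omega)⟩
    split_ifs
    · exact hσ _ h1
    · exact hτ _ h1

theorem play_complete [Finite P] {σ τ : List P → P} (hσ : IsStrategy σ) (hτ : IsStrategy τ) :
    Complete (play σ τ (Nat.card P)) := by
  classical
  haveI := Fintype.ofFinite P
  have h1 := play_nodup hσ hτ _ le_rfl
  refine ⟨h1, fun x => ?_⟩
  have h2 : (play σ τ (Nat.card P)).toFinset = Finset.univ := by
    apply Finset.eq_univ_of_card
    rw [List.toFinset_card_of_nodup h1, play_length, Nat.card_eq_fintype_card]
  rw [← List.mem_toFinset, h2]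
  exact Finset.mem_univ x

theorem play_follows (σ τ : List P → P) (k : ℕ) : Follows 0 σ (play σ τ k) ∧
    Follows 1 τ (play σ τ k) := by
  induction k with
  | zero =>
    constructor
    · intro x m h
      have := List.suffix_nil.1 h
      simp at this
    · intro x m h
      have := List.suffix_nil.1 h
      simp at this
  | succ k ih =>
    constructor
    · intro x m h hm
      rw [play, List.suffix_cons_iff] at h
      rcases h with h | h
      · obtain ⟨rfl, rfl⟩ := List.cons.inj h
        rw [play_length] at hm
        rw [if_pos hm]
      · exact ih.1 x m h hm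
    · intro x m h hm
      rw [play, List.suffix_cons_iff] at h
      rcases h with h | h
      · obtain ⟨rfl, rfl⟩ := List.cons.inj h
        rw [play_length] at hm
        rw [if_neg (by omega)]
      · exact ih.2 x m h hm

/-- A strategy of Breaker bounds the value of the game. -/
theorem gSeq_le [Finite P] [Preorder P] {B : ℕ} {τ : List P → P} (hτ : IsStrategy τ)
    (h : ∀ l, Complete l → Follows 1 τ l → seqScore l ≤ B) : gSeq P ≤ B := by
  refine csSup_le' ?_
  rintro s ⟨σ, hσ, hs⟩
  exact (hs _ (play_complete hσ hτ) (play_follows σ τ _).1).trans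
    (h _ (play_complete hσ hτ) (play_follows σ τ _).2)

end Pool.Agent.J6H80.SG
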