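import Pool.Agent.J6H80.SG.Walk
import Pool.Agent.J6H80.SG.Value

/-!
# Maker's strategy in the sequence game on `Q^d_n`
-/

set_option autoImplicit false

namespace Pool.Agent.J6H80.SG

/-- Maker's score in the set game: the largest size of a chain of elements claimed by her. -/
noncomputable def setScore {P : Type*} [Preorder P] (l : List P) : ℕ :=
  sSup {k | ∃ c : List P, (∀ x ∈ c, x ∈ makerMoves l) ∧ c.Pairwise (· > ·) ∧ c.length = k}

/-- The largest score that Maker can guarantee in the set game on `P`. -/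
noncomputable def gSet (P : Type*) [Preorder P] : ℕ :=
  sSup {s | ∃ σ : List P → P, IsStrategy σ ∧ ∀ l, Complete l → Follows 0 σ l → s ≤ setScore l}

variable {d n : ℕ}

instance finiteQ : Finite (Q d n) := by
  refine Finite.of_injective (β := Fin d → Fin (n + 1)) (fun x j => ⟨x.1 j, ?_⟩) ?_
  · exact Nat.lt_succ_of_le ((Finset.single_le_sum (f := x.1) (fun i _ => Nat.zero_le _)
      (Finset.mem_univ j)).trans x.2)
  · intro x y hxy
    apply Subtype.ext
    funext j
    exact congrArg Fin.val (congrFun hxy j)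

theorem szQ_lt {x y : Q d n} (h : x < y) : sz x.1 < sz y.1 :=
  sz_lt (le_of_lt h) fun hc => h.ne (Subtype.ext hc)

theorem chain_len {c : List (Q d n)} (h : c.Pairwise (· > ·)) : c.length ≤ n + 1 := by
  have hnod : (c.map fun x => sz x.1).Nodup := by
    change List.Pairwise (· ≠ ·) _
    rw [List.pairwise_map]
    exact h.imp fun hab => (szQ_lt hab).ne'
  have h1 : (c.map fun x => sz x.1).toFinset ⊆ Finset.range (n + 1) := by
    intro t ht
    rw [List.mem_toFinset, List.mem_map] at ht
    obtain ⟨y, -, rfl⟩ := ht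
    rw [Finset.mem_range]
    exact Nat.lt_succ_of_le y.2
  have h2 := Finset.card_le_card h1
  rwa [List.toFinset_card_of_nodup hnod, List.length_map, Finset.card_range] at h2

theorem setScore_le (l : List (Q d n)) : setScore l ≤ n + 1 := by
  refine csSup_le' ?_
  rintro k ⟨c, -, h, rfl⟩
  exact chain_len h

theorem seq_le_set (l : List (Q d n)) : seqScore l ≤ setScore l := by
  refine csSup_le_csSup ⟨n + 1, ?_⟩ ⟨0, [], List.nil_sublist _, List.Pairwise.nil, rfl⟩ ?_
  · rintro k ⟨c, -, h, rfl⟩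
    exact chain_len h
  · rintro k ⟨c, h1, h2, h3⟩
    exact ⟨c, fun x hx => h1.subset hx, h2, h3⟩

theorem le_seqScore {l c : List (Q d n)} (h1 : c.Sublist (makerMoves l))
    (h2 : c.Pairwise (· > ·)) : c.length ≤ seqScore l := by
  refine le_csSup ⟨n + 1, ?_⟩ ⟨c, h1, h2, rfl⟩
  rintro k ⟨c, -, h, rfl⟩
  exact chain_len h

/-- an unclaimed element, if there is one -/
noncomputable def oth {P : Type*} (o : P) (l : List P) : P :=
  open Classical in if h : ∃ x, x ∉ l then h.choose else o

theorem oth_spec {P : Type*} (o : P) {l : List P} (h : ∃ x, x ∉ l) : oth o l ∉ l := by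
  rw [oth, dif_pos h]
  exact h.choose_spec

theorem bddSeq : BddAbove {s | Guarantees (Q d n) s} := by
  refine ⟨n + 1, ?_⟩
  rintro s ⟨σ, hσ, hs⟩
  exact ((hs _ (play_complete hσ hσ) (play_follows σ σ _).1).trans (seq_le_set _)).trans
    (setScore_le _)

theorem bddSet : BddAbove {s | ∃ σ : List (Q d n) → Q d n, IsStrategy σ ∧
    ∀ l, Complete l → Follows 0 σ l → s ≤ setScore l} := by
  refine ⟨n + 1, ?_⟩
  rintro s ⟨σ, hσ, hs⟩
  exact (hs _ (play_complete hσ hσ) (play_follows σ σ _).1).trans (setScore_le _)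

theorem gSeq_le_gSet : gSeq (Q d n) ≤ gSet (Q d n) := by
  refine csSup_le_csSup bddSet ⟨0, oth ⟨0, by simp⟩, fun l h => oth_spec _ h,
    fun l _ _ => Nat.zero_le _⟩ ?_
  rintro s ⟨σ, hσ, hs⟩
  exact ⟨σ, hσ, fun l h1 h2 => (hs l h1 h2).trans (seq_le_set l)⟩

theorem gSet_le : gSet (Q d n) ≤ n + 1 := by
  refine csSup_le' ?_
  rintro s ⟨σ, hσ, hs⟩
  exact (hs _ (play_complete hσ hσ) (play_follows σ σ _).1).trans (setScore_le _)

variable {K : ℕ} {γ ε : ℝ}

/-- enough elements for the bounds -/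
def Enough (d K n : ℕ) (γ ε : ℝ) (s : ℕ) : Prop :=
  gn d γ * ((n : ℝ) + 1 - s) ≤ ε * s ∧ (n ≤ K → n + 1 ≤ s)

/-- Maker has enough elements. -/
def Fins (K : ℕ) (γ ε : ℝ) (l : List (Q d n)) : Prop :=
  ∃ c : List (Q d n), c.Sublist (makerMoves l) ∧ c.Pairwise (· > ·) ∧ Enough d K n γ ε c.length

/-- Maker can continue her chain. -/
def Act (K : ℕ) (γ ε : ℝ) (l : List (Q d n)) : Prop :=
  l = [] ∨ ∃ (B : Finset (Fin d → ℕ)) (x : Q d n) (m : List (Q d n)),
    makerMoves l = x :: m ∧ (x :: m).Pairwise (· > ·) ∧ (∀ p ∈ l, p ∈ x :: m ∨ p.1 ∈ B) ∧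
    B.card ≤ (x :: m).length ∧ (∀ v ∈ B, sz v ≤ n) ∧ SI d K γ ε B x.1 (x :: m).length

theorem mmEven {P : Type*} {l : List P} (h : l.length % 2 = 0) (x : P) :
    makerMoves (x :: l) = x :: makerMoves l := by
  rw [makerMoves, if_pos h]

theorem mmOdd {P : Type*} {l : List P} (h : l.length % 2 = 1) (x : P) :
    makerMoves (x :: l) = makerMoves l := by
  rw [makerMoves, if_neg (by omega)]

theorem mmSub {P : Type*} (l : List P) (x : P) : (makerMoves l).Sublist (makerMoves (x :: l)) := by
  rw [makerMoves]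
  split_ifs
  · exact List.sublist_cons_self _ _
  · exact List.Sublist.refl _

theorem Fins.cons {l : List (Q d n)} (h : Fins K γ ε l) (x : Q d n) : Fins K γ ε (x :: l) := by
  obtain ⟨c, h1, h2, h3⟩ := h
  exact ⟨c, h1.trans (mmSub l x), h2, h3⟩

theorem enough_of_top (h : Par d K γ ε) {B : Finset (Fin d → ℕ)} {z : Fin d → ℕ} {A : ℕ}
    (hz : sz z = n) (hS : SI d K γ ε B z A) (hB : B.card ≤ A) (hBn : ∀ v ∈ B, sz v ≤ n) :
    Enough d K n γ ε A := by
  have hγ := h.hγ
  have hη : 0 < gn d γ := gn_pos h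
  unfold SI at hS
  have h1 : fx d γ ≤ max (Ph K γ B z) (fx d γ) := le_max_right _ _
  rw [hz] at hS
  constructor
  · have h2 : Nn K B z ≤ A := (Finset.card_filter_le _ _).trans hB
    have h3 : (Nn K B z : ℝ) ≤ A := by exact_mod_cast h2
    have h4 := mul_le_mul_of_nonneg_left h3 h.hε
    linarith
  · intro hn
    have h2 : Nn K B z = 0 := by
      rw [Nn, Finset.card_eq_zero, Finset.filter_eq_empty_iff]
      intro v hv hc
      have := hBn v hv
      omega
    rw [h2, Nat.cast_zero, mul_zero, add_zero] at hS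
    have h3 : gn d γ * ((n : ℝ) + 1 - A) ≤ 0 := by linarith
    have h4 : (n : ℝ) + 1 - A ≤ 0 := by
      by_contra hc
      push Not at hc
      have := mul_pos hη hc
      linarith
    have h5 : ((n + 1 : ℕ) : ℝ) ≤ A := by
      push_cast
      linarith
    exact_mod_cast h5

theorem not_mem_of {l m : List (Q d n)} {B : Finset (Fin d → ℕ)} {x : Q d n} {y : Fin d → ℕ}
    (hp : (x :: m).Pairwise (· > ·)) (hl : ∀ p ∈ l, p ∈ x :: m ∨ p.1 ∈ B) (h1 : x.1 ≤ y)
    (h2 : x.1 ≠ y) (h3 : sz y ≤ n) (h4 : y ∉ B) : (⟨y, h3⟩ : Q d n) ∉ l := by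
  intro hc
  rcases hl _ hc with h | h
  · have h5 : (⟨y, h3⟩ : Q d n) ≤ x := by
      rcases List.mem_cons.1 h with h6 | h6
      · exact h6.le
      · exact ((List.pairwise_cons.1 hp).1 _ h6).le
    exact h2 (le_antisymm h1 h5)
  · exact h4 h

/-- Maker's move -/
theorem mstep (h : Par d K γ ε) {l : List (Q d n)} (hA : Act K γ ε l) (hl : l.length % 2 = 0) :
    Fins K γ ε l ∨ ∃ y, y ∉ l ∧ Act K γ ε (y :: l) ∧ ∀ b, Act K γ ε (b :: y :: l) := by
  classical
  rcases hA with rfl | ⟨B, x, m, hm, hp, hpl, hB, hBn, hS⟩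
  · right
    have h0 : ∑ j, (0 : Fin d → ℕ) j ≤ n := by simp
    refine ⟨⟨0, h0⟩, by simp, Or.inr ⟨insert 0 ∅, ⟨0, h0⟩, [], ?_, by simp, ?_, by simp, ?_, ?_⟩,
      fun b => Or.inr ⟨insert b.1 ∅, ⟨0, h0⟩, [], ?_, by simp, ?_, by simp, ?_, ?_⟩⟩
    · rw [mmEven (by simp), makerMoves]
    · intro p hp
      exact Or.inl hp
    · intro v hv
      rw [insert_empty_eq, Finset.mem_singleton] at hv
      rw [hv]
      simp [sz]
    · exact start h 0
    · rw [mmOdd (by simp), mmEven (by simp), makerMoves]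
    · intro p hp
      rcases List.mem_cons.1 hp with rfl | hp
      · exact Or.inr (by simp)
      · exact Or.inl hp
    · intro v hv
      rw [insert_empty_eq, Finset.mem_singleton] at hv
      rw [hv]
      exact b.2
    · exact start h b.1
  · have hx : sz x.1 ≤ n := x.2
    rcases reach (n := n) h (n - sz x.1) x.1 (by omega) hS with ⟨y, h1, h2, h3, h4, h5⟩ | ⟨z, hz, h1⟩
    · right
      have hyl := not_mem_of hp hpl h1 h2 h3 h4
      have hyx : (⟨y, h3⟩ : Q d n) > x := lt_of_le_of_ne h1 fun hc => h2 (congrArg Subtype.val hc)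
      have hp2 : ((⟨y, h3⟩ : Q d n) :: x :: m).Pairwise (· > ·) := by
        rw [List.pairwise_cons]
        refine ⟨fun p hpm => ?_, hp⟩
        rcases List.mem_cons.1 hpm with rfl | h6
        · exact hyx
        · exact lt_trans ((List.pairwise_cons.1 hp).1 _ h6) hyx
      have gen : ∀ (b : Fin d → ℕ) (l' : List (Q d n)), sz b ≤ n →
          makerMoves l' = ⟨y, h3⟩ :: x :: m →
          (∀ p ∈ l', p = ⟨y, h3⟩ ∨ p ∈ l ∨ p.1 = b) → Act K γ ε l' := by
        intro b l' hb hml hpl'
        refine Or.inr ⟨insert b B, ⟨y, h3⟩, x :: m, hml, hp2, ?_, ?_, ?_, ?_⟩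
        · intro p hp'
          rcases hpl' p hp' with h6 | h6 | h6
          · exact Or.inl (by rw [h6]; exact List.mem_cons_self)
          · rcases hpl p h6 with h7 | h7
            · exact Or.inl (List.mem_cons_of_mem _ h7)
            · exact Or.inr (Finset.mem_insert_of_mem h7)
          · exact Or.inr (by rw [h6]; exact Finset.mem_insert_self _ _)
        · rw [List.length_cons]
          exact (Finset.card_insert_le _ _).trans (Nat.add_le_add_right hB 1)
        · intro v hv
          rcases Finset.mem_insert.1 hv with rfl | hv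
          · exact hb
          · exact hBn v hv
        · exact h5 b
      refine ⟨⟨y, h3⟩, hyl, gen y _ h3 ?_ ?_, fun b => gen b.1 _ b.2 ?_ ?_⟩
      · rw [mmEven hl, hm]
      · intro p hp'
        rcases List.mem_cons.1 hp' with h6 | h6
        · exact Or.inl h6
        · exact Or.inr (Or.inl h6)
      · rw [mmOdd (by rw [List.length_cons]; omega), mmEven hl, hm]
      · intro p hp'
        rcases List.mem_cons.1 hp' with h6 | h6
        · exact Or.inr (Or.inr (congrArg Subtype.val h6))
        · rcases List.mem_cons.1 h6 with h7 | h7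
          · exact Or.inl h7
          · exact Or.inr (Or.inl h7)
    · left
      refine ⟨x :: m, ?_, hp, enough_of_top h hz h1 hB hBn⟩
      rw [hm]

open Classical in
/-- Maker's strategy -/
noncomputable def mkr (K : ℕ) (γ ε : ℝ) (o : Q d n) (l : List (Q d n)) : Q d n :=
  if h : ∃ y, y ∉ l ∧ Act K γ ε (y :: l) ∧ ∀ b, Act K γ ε (b :: y :: l) then h.choose
  else oth o l

theorem mkr_isStrategy (o : Q d n) : IsStrategy (mkr K γ ε o) := by
  intro l hl
  rw [mkr]
  split_ifs with h
  · exact h.choose_spec.1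
  · exact oth_spec o hl

theorem mkr_good (h : Par d K γ ε) (o : Q d n) (l : List (Q d n))
    (hf : Follows 0 (mkr K γ ε o) l) : Act K γ ε l ∨ Fins K γ ε l := by
  induction hk : l.length using Nat.strong_induction_on generalizing l with
  | _ k ih =>
  match l, hf, hk with
  | [], _, _ => exact Or.inl (Or.inl rfl)
  | x :: l, hf, hk =>
    rw [List.length_cons] at hk
    have hf1 : Follows 0 (mkr K γ ε o) l := fun a m hm => hf a m (hm.trans (List.suffix_cons _ _))
    have key : ∀ (y : Q d n) (l' : List (Q d n)), l'.length < k → l'.length % 2 = 0 →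
        Follows 0 (mkr K γ ε o) l' → y = mkr K γ ε o l' →
        Fins K γ ε l' ∨ (Act K γ ε (y :: l') ∧ ∀ b, Act K γ ε (b :: y :: l')) := by
      intro y l' hlk hl2 hfl hy
      rcases ih l'.length hlk l' hfl rfl with hA | hF
      · rcases mstep h hA hl2 with h1 | h1
        · exact Or.inl h1
        · right
          rw [mkr, dif_pos h1] at hy
          rw [hy]
          exact h1.choose_spec.2
      · exact Or.inl hF
    by_cases hp : l.length % 2 = 0
    · rcases key x l (by omega) hp hf1 (hf x l (List.suffix_refl _) hp) with h1 | h1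
      · exact Or.inr (h1.cons x)
      · exact Or.inl h1.1
    · match l, hf, hf1, hk, hp with
      | [], _, _, _, hp => exact absurd rfl hp
      | y :: l, hf, hf1, hk, hp =>
        rw [List.length_cons] at hp hk
        have hf2 : Follows 0 (mkr K γ ε o) l :=
          fun a m hm => hf1 a m (hm.trans (List.suffix_cons _ _))
        rcases key y l (by omega) (by omega) hf2
          (hf1 y l (List.suffix_refl _) (by omega)) with h1 | h1
        · exact Or.inr ((h1.cons y).cons x)
        · exact Or.inl (h1.2 x)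

theorem fins_of_complete (h : Par d K γ ε) {l : List (Q d n)} (hc : Complete l)
    (hA : Act K γ ε l) : Fins K γ ε l := by
  rcases hA with rfl | ⟨B, x, m, hm, hp, hpl, hB, hBn, hS⟩
  · have := hc.2 ⟨0, by simp⟩
    simp at this
  · have hx : sz x.1 ≤ n := x.2
    rcases reach (n := n) h (n - sz x.1) x.1 (by omega) hS with ⟨y, h1, h2, h3, h4, -⟩ | ⟨z, hz, h1⟩
    · exact absurd (hc.2 _) (not_mem_of hp hpl h1 h2 h3 h4)
    · refine ⟨x :: m, ?_, hp, enough_of_top h hz h1 hB hBn⟩
      rw [hm]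

/-- The general bound. -/
theorem main (h : Par d K γ ε) (n s₀ : ℕ) (hs : ∀ s, Enough d K n γ ε s → s₀ ≤ s) :
    s₀ ≤ gSeq (Q d n) := by
  refine le_csSup bddSeq ⟨mkr K γ ε ⟨0, by simp⟩, mkr_isStrategy _, fun l hl hf => ?_⟩
  have h1 : Fins K γ ε l := by
    rcases mkr_good h _ l hf with h1 | h1
    · exact fins_of_complete h hl h1
    · exact h1
  obtain ⟨c, h2, h3, h4⟩ := h1
  exact (hs _ h4).trans (le_seqScore h2 h3)

end Pool.Agent.J6H80.SG
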