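import Pool.Agent.J6H80.SG.MGame

/-!
# The parameters
-/

set_option autoImplicit false

namespace Pool.Agent.J6H80.SG

/-- `m! b^e ≤ a^e (q!)^d (q + 1)^(m - d q)` with `q = m / d` -/
def facChk (d a b m e : ℕ) : Bool :=
  decide (m.factorial * b ^ e ≤
    a ^ e * ((m / d).factorial ^ d * (m / d + 1) ^ (m - d * (m / d))))

/-- the verification of the parameters -/
def parChk (d K a b nn dd : ℕ) : Bool :=
  (List.range K).all (fun m => facChk d a b (m + 1) m) &&
    decide (K.factorial * b ^ K * dd ≤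
      nn * a ^ K * ((K / d).factorial ^ d * (K / d + 1) ^ (K - d * (K / d))))

theorem par_of_chk {d K a b nn dd : ℕ} (hd : 1 ≤ d) (hK : 1 ≤ K) (ha0 : 0 < a) (hb : 0 < b)
    (hdd : 0 < dd) (ha : a + b < d * b) (hc : parChk d K a b nn dd = true) :
    Par d K ((a : ℝ) / b) ((nn : ℝ) / dd) := by
  rw [parChk, Bool.and_eq_true, List.all_eq_true] at hc
  obtain ⟨c1, c2⟩ := hc
  have c2' := of_decide_eq_true c2
  have hbR : (0 : ℝ) < b := by exact_mod_cast hb
  have haR : (0 : ℝ) < a := by exact_mod_cast ha0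
  have hddR : (0 : ℝ) < dd := by exact_mod_cast hdd
  refine ⟨hd, hK, by positivity, ?_, by positivity, ?_, ?_⟩
  · rw [div_lt_iff₀ hbR]
    have : (a : ℝ) + b < d * b := by exact_mod_cast ha
    linarith
  · intro u hu1 huK
    have h1 := c1 (sz u - 1) (List.mem_range.2 (by omega))
    rw [facChk, Nat.sub_add_cancel hu1] at h1
    have h2 := of_decide_eq_true h1
    refine (mf_le u (sz u / d) (Nat.mul_div_le _ _)).trans ?_
    rw [div_pow, div_le_div_iff₀ (by positivity) (by positivity)]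
    exact_mod_cast h2
  · intro u hu
    refine (mf_le u (sz u / d) (Nat.mul_div_le _ _)).trans ?_
    rw [hu, div_pow, div_mul_div_comm, div_le_div_iff₀ (by positivity) (by positivity)]
    have h3 : K.factorial * (dd * b ^ K) ≤
        nn * a ^ K * ((K / d).factorial ^ d * (K / d + 1) ^ (K - d * (K / d))) := by
      calc K.factorial * (dd * b ^ K) = K.factorial * b ^ K * dd := by ring
        _ ≤ _ := c2'
    exact_mod_cast h3

/-- exact values below the horizon -/
theorem exact_of_par {d K : ℕ} {γ ε : ℝ} (h : Par d K γ ε) (n : ℕ) (hn : n ≤ K) :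
    gSeq (Q d n) = n + 1 ∧ gSet (Q d n) = n + 1 := by
  have h1 := main h n (n + 1) fun s hs => hs.2 hn
  have h2 := gSeq_le_gSet (d := d) (n := n)
  have h3 := gSet_le (d := d) (n := n)
  omega

/-- the bound for all `n` -/
theorem bound_of_par {d K : ℕ} {γ ε κ : ℝ} (h : Par d K γ ε) (hκ0 : 0 ≤ κ)
    (hκ1 : ε ≤ κ * (d / γ - 1)) (hκ2 : ε ≤ κ * (d / γ - d / (γ * (d - γ)))) (n : ℕ) :
    ((n : ℝ) + 1) ≤ (1 + κ) * gSeq (Q d n) := by
  have hη := gn_pos h
  have hκ : ε ≤ κ * gn d γ := by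
    unfold gn
    rcases max_choice 1 (fx d γ) with hm | hm
    · rw [hm]
      exact hκ1
    · rw [hm]
      exact hκ2
  have h1 : ∀ s, Enough d K n γ ε s → ⌈((n : ℝ) + 1) / (1 + κ)⌉₊ ≤ s := by
    intro s hs
    rw [Nat.ceil_le, div_le_iff₀ (by linarith)]
    have h2 := hs.1
    have h3 : (0 : ℝ) ≤ s := by positivity
    have h4 := mul_le_mul_of_nonneg_right hκ h3
    have h5 : gn d γ * ((n : ℝ) + 1 - s) ≤ gn d γ * (κ * s) := by linarith
    have h6 := le_of_mul_le_mul_left h5 hη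
    linarith
  have h2 := main h n _ h1
  have h3 : ((n : ℝ) + 1) / (1 + κ) ≤ gSeq (Q d n) := (Nat.le_ceil _).trans (by exact_mod_cast h2)
  rw [div_le_iff₀ (by linarith)] at h3
  linarith

/-- The bound gives the exact value for `n + 1 < 1 / κ`. -/
theorem exact_of_bound {d : ℕ} {κ : ℝ} (hκ0 : 0 ≤ κ)
    (h : ∀ n : ℕ, ((n : ℝ) + 1) ≤ (1 + κ) * gSeq (Q d n)) (n N : ℕ) (hn : n ≤ N)
    (hN : κ * (N + 1) < 1) : gSeq (Q d n) = n + 1 ∧ gSet (Q d n) = n + 1 := by
  have h2 := gSeq_le_gSet (d := d) (n := n)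
  have h3 := gSet_le (d := d) (n := n)
  have h4 : (gSeq (Q d n) : ℝ) ≤ N + 1 := by
    have : gSeq (Q d n) ≤ N + 1 := by omega
    exact_mod_cast this
  have h5 := mul_le_mul_of_nonneg_left h4 hκ0
  have h6 := h n
  have h7 : (n : ℝ) < gSeq (Q d n) := by linarith
  have h8 : n < gSeq (Q d n) := by exact_mod_cast h7
  omega

end Pool.Agent.J6H80.SG
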