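import Mathlib

/-!
# The potential for a walk upwards in `ℕ^d`

`mf u = |u|! / (u₁! ... u_d!)`. The potential of a marked point `v` seen from `x ≤ v` is
`mf (v - x) / γ ^ (|v| - |x|)`, if `|v| - |x| ≤ K`.
-/

set_option autoImplicit false

open Finset

namespace Pool.Agent.J6H80.SG

variable {d : ℕ}

/-- the coordinate sum -/
def sz (u : Fin d → ℕ) : ℕ := ∑ j, u j

/-- the multinomial coefficient -/
noncomputable def mf (u : Fin d → ℕ) : ℝ := (sz u).factorial / ∏ j, ((u j).factorial : ℝ)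

/-- the unit vectors -/
def ue (i : Fin d) : Fin d → ℕ := Pi.single i 1

theorem sz_ue (i : Fin d) : sz (ue i) = 1 := by
  simp [sz, ue]

theorem sz_add (x y : Fin d → ℕ) : sz (x + y) = sz x + sz y := by
  simp [sz, Finset.sum_add_distrib]

theorem sz_add_ue (x : Fin d → ℕ) (i : Fin d) : sz (x + ue i) = sz x + 1 := by
  rw [sz_add, sz_ue]

theorem sz_mono {x y : Fin d → ℕ} (h : x ≤ y) : sz x ≤ sz y :=
  Finset.sum_le_sum fun i _ => h i

theorem sz_sub {x y : Fin d → ℕ} (h : x ≤ y) : sz (y - x) = sz y - sz x := by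
  have h1 : y = x + (y - x) := by
    funext j
    have hj : x j ≤ y j := h j
    simp only [Pi.add_apply, Pi.sub_apply]
    omega
  have h2 := congrArg sz h1
  rw [sz_add] at h2
  omega

theorem sz_lt {x y : Fin d → ℕ} (h : x ≤ y) (h1 : x ≠ y) : sz x < sz y := by
  obtain ⟨i, hi⟩ : ∃ i, x i ≠ y i := by
    by_contra hcon
    push Not at hcon
    exact h1 (funext hcon)
  exact Finset.sum_lt_sum (fun j _ => h j) ⟨i, Finset.mem_univ i, lt_of_le_of_ne (h i) hi⟩

theorem mf_nonneg (u : Fin d → ℕ) : 0 ≤ mf u := by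
  unfold mf
  positivity

theorem mf_zero : mf (0 : Fin d → ℕ) = 1 := by
  simp [mf, sz]

theorem mf_term (u : Fin d → ℕ) (i : Fin d) (hu : 1 ≤ sz u) :
    (if 1 ≤ u i then mf (u - ue i) else 0) = mf u * ((u i : ℝ) / sz u) := by
  split_ifs with h
  · have h1 : sz (u - ue i) = sz u - 1 := by
      rw [sz_sub, sz_ue]
      intro j
      by_cases hj : j = i
      · subst hj
        simpa [ue] using h
      · simp [ue, hj]
    have h2 : ∏ j, ((u j).factorial : ℝ) =
        (u i).factorial * ∏ j ∈ Finset.univ.erase i, ((u j).factorial : ℝ) :=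
      (Finset.mul_prod_erase _ _ (Finset.mem_univ i)).symm
    have h3 : ∏ j, (((u - ue i) j).factorial : ℝ) =
        (u i - 1).factorial * ∏ j ∈ Finset.univ.erase i, ((u j).factorial : ℝ) := by
      rw [← Finset.mul_prod_erase _ _ (Finset.mem_univ i)]
      congr 1
      · simp [ue]
      · refine Finset.prod_congr rfl fun j hj => ?_
        have : j ≠ i := Finset.ne_of_mem_erase hj
        simp [ue, this]
    have h4 : (∏ j ∈ Finset.univ.erase i, ((u j).factorial : ℝ)) ≠ 0 :=
      Finset.prod_ne_zero_iff.2 fun j _ => by positivity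
    obtain ⟨a, ha⟩ : ∃ a, sz u = a + 1 := ⟨sz u - 1, by omega⟩
    obtain ⟨b, hb⟩ : ∃ b, u i = b + 1 := ⟨u i - 1, by omega⟩
    unfold mf
    rw [h1, h2, h3, ha, hb, Nat.add_sub_cancel, Nat.add_sub_cancel, Nat.factorial_succ,
      Nat.factorial_succ]
    push_cast
    have h5 : ((a : ℝ) + 1) ≠ 0 := by positivity
    have h6 : ((b : ℝ) + 1) ≠ 0 := by positivity
    have h7 : ((b.factorial : ℕ) : ℝ) ≠ 0 := by positivity
    field_simp
  · have : u i = 0 := by omega
    simp [this]

theorem mf_rec (u : Fin d → ℕ) (hu : 1 ≤ sz u) :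
    ∑ i, (if 1 ≤ u i then mf (u - ue i) else 0) = mf u := by
  rw [Finset.sum_congr rfl fun i _ => mf_term u i hu, ← Finset.mul_sum, ← Finset.sum_div]
  have h1 : ∑ i, (u i : ℝ) = sz u := by
    rw [sz]
    push_cast
    rfl
  have h2 : (sz u : ℝ) ≠ 0 := by
    have : (1 : ℝ) ≤ sz u := by exact_mod_cast hu
    positivity
  rw [h1, div_self h2, mul_one]

theorem fac_le (a t : ℕ) : (a + t).factorial ≤ a.factorial * (a + t) ^ t := by
  induction t with
  | zero => simp
  | succ t ih =>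
    calc (a + (t + 1)).factorial = (a + t + 1) * (a + t).factorial := by
          rw [← Nat.factorial_succ]
          rfl
      _ ≤ (a + t + 1) * (a.factorial * (a + t) ^ t) := Nat.mul_le_mul_left _ ih
      _ ≤ (a + t + 1) * (a.factorial * (a + t + 1) ^ t) :=
          Nat.mul_le_mul_left _ (Nat.mul_le_mul_left _ (Nat.pow_le_pow_left (by omega) t))
      _ = a.factorial * (a + (t + 1)) ^ (t + 1) := by
          rw [show a + (t + 1) = a + t + 1 by ring, pow_succ]
          ring

/-- the largest value of the multinomial coefficient -/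
theorem mf_le (u : Fin d → ℕ) (q : ℕ) (hq : d * q ≤ sz u) :
    mf u ≤ (sz u).factorial / ((q.factorial : ℝ) ^ d * ((q : ℝ) + 1) ^ (sz u - d * q)) := by
  have h1 : ∀ a : ℕ, (q.factorial : ℝ) * ((q : ℝ) + 1) ^ a ≤ a.factorial * ((q : ℝ) + 1) ^ q := by
    intro a
    rcases le_total q a with h | h
    · obtain ⟨t, rfl⟩ := Nat.exists_eq_add_of_le h
      have h2 : (q.factorial : ℝ) * ((q : ℝ) + 1) ^ t ≤ (q + t).factorial := by
        exact_mod_cast Nat.factorial_mul_pow_le_factorial (m := q) (n := t)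
      rw [pow_add]
      have h3 : (0 : ℝ) ≤ ((q : ℝ) + 1) ^ q := by positivity
      nlinarith [mul_le_mul_of_nonneg_right h2 h3]
    · obtain ⟨t, rfl⟩ := Nat.exists_eq_add_of_le h
      have h2 : ((a + t).factorial : ℝ) ≤ a.factorial * ((a + t : ℕ) + 1 : ℝ) ^ t := by
        have h3 := fac_le a t
        calc ((a + t).factorial : ℝ) ≤ ((a.factorial * (a + t) ^ t : ℕ) : ℝ) := by exact_mod_cast h3
          _ = a.factorial * ((a + t : ℕ) : ℝ) ^ t := by push_cast; ring
          _ ≤ a.factorial * ((a + t : ℕ) + 1 : ℝ) ^ t := by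
              gcongr
              linarith
      rw [pow_add (((a + t : ℕ) : ℝ) + 1) a t]
      have h3 : (0 : ℝ) ≤ (((a + t : ℕ) : ℝ) + 1) ^ a := by positivity
      nlinarith [mul_le_mul_of_nonneg_right h2 h3]
  have h2 : (q.factorial : ℝ) ^ d * ((q : ℝ) + 1) ^ (sz u) ≤
      (∏ j, ((u j).factorial : ℝ)) * (((q : ℝ) + 1) ^ q) ^ d := by
    have h3 : ∏ j : Fin d, ((q.factorial : ℝ) * ((q : ℝ) + 1) ^ (u j)) ≤
        ∏ j : Fin d, (((u j).factorial : ℝ) * ((q : ℝ) + 1) ^ q) :=
      Finset.prod_le_prod (fun j _ => by positivity) fun j _ => h1 (u j)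
    rw [Finset.prod_mul_distrib, Finset.prod_mul_distrib, Finset.prod_const, Finset.prod_const,
      Finset.card_univ, Fintype.card_fin, Finset.prod_pow_eq_pow_sum] at h3
    exact h3
  have h3 : (q.factorial : ℝ) ^ d * ((q : ℝ) + 1) ^ (sz u - d * q) ≤
      ∏ j, ((u j).factorial : ℝ) := by
    have h4 : ((q : ℝ) + 1) ^ (sz u) = ((q : ℝ) + 1) ^ (sz u - d * q) * (((q : ℝ) + 1) ^ q) ^ d := by
      rw [← pow_mul, ← pow_add, mul_comm q d, Nat.sub_add_cancel hq]
    rw [h4, ← mul_assoc] at h2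
    exact le_of_mul_le_mul_right h2 (by positivity)
  unfold mf
  gcongr

/-- the potential of `v` seen from `x`, `v = x` included, up to the distance `K - 1` -/
noncomputable def ph0 (K : ℕ) (γ : ℝ) (x v : Fin d → ℕ) : ℝ :=
  open Classical in if x ≤ v ∧ sz v < sz x + K then mf (v - x) / γ ^ (sz v - sz x) else 0

/-- the potential of `v` seen from `x`, up to the distance `K` -/
noncomputable def ph1 (K : ℕ) (γ : ℝ) (x v : Fin d → ℕ) : ℝ :=
  open Classical in if x ≤ v ∧ x ≠ v ∧ sz v ≤ sz x + K then mf (v - x) / γ ^ (sz v - sz x) else 0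

variable {K : ℕ} {γ : ℝ}

theorem ph0_nonneg (hγ : 0 < γ) (x v : Fin d → ℕ) : 0 ≤ ph0 K γ x v := by
  unfold ph0
  split_ifs
  · exact div_nonneg (mf_nonneg _) (by positivity)
  · exact le_rfl

theorem add_ue_le {x v : Fin d → ℕ} {i : Fin d} : x + ue i ≤ v ↔ x ≤ v ∧ 1 ≤ (v - x) i := by
  constructor
  · intro h
    have h1 : x ≤ v := fun j => le_trans (Nat.le_add_right _ _) (h j)
    refine ⟨h1, ?_⟩
    have := h i
    simp only [Pi.add_apply, Pi.sub_apply, ue, Pi.single_eq_same] at this ⊢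
    omega
  · rintro ⟨h, h1⟩ j
    have := h j
    simp only [Pi.sub_apply] at h1
    by_cases hj : j = i
    · subst hj
      simp only [Pi.add_apply, ue, Pi.single_eq_same]
      omega
    · simp only [Pi.add_apply, ue, Pi.single_apply, if_neg hj]
      omega

theorem sum_ph0 (hγ : 0 < γ) (x v : Fin d → ℕ) :
    ∑ i, ph0 K γ (x + ue i) v = γ * ph1 K γ x v := by
  by_cases h : x ≤ v ∧ x ≠ v ∧ sz v ≤ sz x + K
  · have h1 := sz_lt h.1 h.2.1
    have h2 : sz (v - x) = sz v - sz x := sz_sub h.1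
    rw [ph1, if_pos h]
    have h3 : ∀ i, ph0 K γ (x + ue i) v =
        (if 1 ≤ (v - x) i then mf (v - x - ue i) else 0) / γ ^ (sz v - sz x - 1) := by
      intro i
      rw [ph0]
      by_cases hi : 1 ≤ (v - x) i
      · rw [if_pos ⟨add_ue_le.2 ⟨h.1, hi⟩, by rw [sz_add_ue]; omega⟩, if_pos hi, sz_add_ue]
        congr 2
        funext j
        simp only [Pi.sub_apply, Pi.add_apply]
        omega
      · rw [if_neg (fun hc => hi (add_ue_le.1 hc.1).2), if_neg hi, zero_div]
    rw [Finset.sum_congr rfl fun i _ => h3 i, ← Finset.sum_div, mf_rec _ (by omega)]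
    obtain ⟨k, hk⟩ : ∃ k, sz v - sz x = k + 1 := ⟨sz v - sz x - 1, by omega⟩
    rw [hk, Nat.add_sub_cancel, pow_succ]
    field_simp
  · rw [ph1, if_neg h, mul_zero]
    refine Finset.sum_eq_zero fun i _ => ?_
    rw [ph0, if_neg]
    rintro ⟨h1, h2⟩
    have h3 := add_ue_le.1 h1
    rw [sz_add_ue] at h2
    refine h ⟨h3.1, ?_, by omega⟩
    rintro rfl
    simp at h3

theorem ph1_le (hγ : 0 < γ) {ε : ℝ} (hε : 0 ≤ ε)
    (hK : ∀ u : Fin d → ℕ, sz u = K → mf u ≤ ε * γ ^ K) (y v : Fin d → ℕ) :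
    ph1 K γ y v ≤ ph0 K γ y v + if sz v = sz y + K then ε else 0 := by
  unfold ph1
  split_ifs with h h2 h2
  · have h3 : sz v - sz y = K := by omega
    have h4 := ph0_nonneg (K := K) hγ y v
    have h5 := hK (v - y) (by rw [sz_sub h.1, h3])
    rw [h3]
    have h6 : mf (v - y) / γ ^ K ≤ ε := by
      rw [div_le_iff₀ (by positivity)]
      exact h5
    linarith
  · rw [ph0, if_pos ⟨h.1, by omega⟩, add_zero]
  · have h4 := ph0_nonneg (K := K) hγ y v
    linarith
  · have h4 := ph0_nonneg (K := K) hγ y v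
    linarith

end Pool.Agent.J6H80.SG
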