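import Pool.Agent.J6H80.SG.Pot

/-!
# The walk of Maker
-/

set_option autoImplicit false

open Finset

namespace Pool.Agent.J6H80.SG

variable {d : ℕ}

/-- the parameters: horizon `K`, base `γ`, weight `ε` of an entering point -/
structure Par (d K : ℕ) (γ ε : ℝ) : Prop where
  hd : 1 ≤ d
  hK : 1 ≤ K
  hγ : 0 < γ
  hγd : γ < d - 1
  hε : 0 ≤ ε
  h1 : ∀ u : Fin d → ℕ, 1 ≤ sz u → sz u ≤ K → mf u ≤ γ ^ (sz u - 1)
  h2 : ∀ u : Fin d → ℕ, sz u = K → mf u ≤ ε * γ ^ K

/-- the total potential -/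
noncomputable def Ph (K : ℕ) (γ : ℝ) (B : Finset (Fin d → ℕ)) (x : Fin d → ℕ) : ℝ :=
  ∑ v ∈ B, ph1 K γ x v

/-- the number of points which have entered the horizon -/
noncomputable def Nn (K : ℕ) (B : Finset (Fin d → ℕ)) (x : Fin d → ℕ) : ℕ :=
  (B.filter fun v => K < sz v ∧ sz v ≤ sz x + K).card

theorem Nn_mono {K : ℕ} {B B' : Finset (Fin d → ℕ)} (h : B ⊆ B') (x : Fin d → ℕ) :
    Nn K B x ≤ Nn K B' x := card_le_card (filter_subset_filter _ h)

theorem Nn_step {K : ℕ} (B : Finset (Fin d → ℕ)) (x : Fin d → ℕ) (i : Fin d) :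
    Nn K B x + (B.filter fun v => sz v = sz (x + ue i) + K).card ≤ Nn K B (x + ue i) := by
  classical
  unfold Nn
  rw [← card_union_of_disjoint]
  · refine card_le_card fun v hv => ?_
    rw [sz_add_ue] at *
    rcases mem_union.1 hv with h | h
    · rw [mem_filter] at h ⊢
      exact ⟨h.1, h.2.1, by omega⟩
    · rw [mem_filter] at h ⊢
      exact ⟨h.1, by omega, by omega⟩
  · rw [disjoint_left]
    intro v hv hv2
    rw [mem_filter] at hv hv2
    rw [sz_add_ue] at hv2
    omega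

/-- the fixed point of the potential when no points enter -/
noncomputable def fx (d : ℕ) (γ : ℝ) : ℝ := d / (γ * (d - γ))

/-- the gain of a skipped level -/
noncomputable def gn (d : ℕ) (γ : ℝ) : ℝ := d / γ - max 1 (fx d γ)

/-- The inequality that Maker maintains: she is at the level of `z` and has `A` elements. -/
def SI (d K : ℕ) (γ ε : ℝ) (B : Finset (Fin d → ℕ)) (z : Fin d → ℕ) (A : ℕ) : Prop :=
  gn d γ * (sz z + 1 - A) + max (Ph K γ B z) (fx d γ) ≤ fx d γ + ε * Nn K B z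

variable {K : ℕ} {γ ε : ℝ}

/-- one step without regard to the marks -/
theorem step0 (h : Par d K γ ε) (B : Finset (Fin d → ℕ)) (x : Fin d → ℕ) :
    ∃ i, (∑ v ∈ B, ph0 K γ (x + ue i) v) ≤ γ / d * Ph K γ B x ∧
      Ph K γ B (x + ue i) ≤ γ / d * Ph K γ B x +
        ε * ((Nn K B (x + ue i) : ℝ) - Nn K B x) := by
  classical
  have hd0 : (0 : ℝ) < d := by exact_mod_cast h.hd
  have h1 : ∑ i : Fin d, (∑ v ∈ B, ph0 K γ (x + ue i) v) ≤
      ∑ _i : Fin d, γ / d * Ph K γ B x := by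
    rw [sum_comm, sum_const, card_univ, Fintype.card_fin, nsmul_eq_mul, Ph, mul_sum, mul_sum]
    refine sum_le_sum fun v _ => ?_
    rw [sum_ph0 h.hγ]
    refine le_of_eq ?_
    field_simp
  haveI : Nonempty (Fin d) := ⟨⟨0, h.hd⟩⟩
  obtain ⟨i, -, hi⟩ := exists_le_of_sum_le univ_nonempty h1
  refine ⟨i, hi, ?_⟩
  have h2 : Ph K γ B (x + ue i) ≤ (∑ v ∈ B, ph0 K γ (x + ue i) v) +
      ε * (B.filter fun v => sz v = sz (x + ue i) + K).card := by
    calc Ph K γ B (x + ue i) ≤ ∑ v ∈ B, (ph0 K γ (x + ue i) v +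
          if sz v = sz (x + ue i) + K then ε else 0) :=
          sum_le_sum fun v _ => ph1_le h.hγ h.hε h.h2 _ v
      _ = _ := by
          rw [sum_add_distrib, ← sum_filter, sum_const, nsmul_eq_mul, mul_comm]
  have h3 := Nn_step (K := K) B x i
  have h4 : ((B.filter fun v => sz v = sz (x + ue i) + K).card : ℝ) ≤
      (Nn K B (x + ue i) : ℝ) - Nn K B x := by
    have : (Nn K B x : ℝ) + (B.filter fun v => sz v = sz (x + ue i) + K).card ≤
      Nn K B (x + ue i) := by exact_mod_cast h3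
    linarith
  have h5 := mul_le_mul_of_nonneg_left h4 h.hε
  linarith

theorem ph1_le_inv (h : Par d K γ ε) (y b : Fin d → ℕ) : ph1 K γ y b ≤ 1 / γ := by
  have hγ := h.hγ
  unfold ph1
  split_ifs with hc
  · have h1 := sz_lt hc.1 hc.2.1
    have h2 := h.h1 (b - y) (by rw [sz_sub hc.1]; omega) (by rw [sz_sub hc.1]; omega)
    rw [sz_sub hc.1] at h2
    obtain ⟨k, hk⟩ : ∃ k, sz b - sz y = k + 1 := ⟨sz b - sz y - 1, by omega⟩
    rw [hk, Nat.add_sub_cancel] at h2
    rw [hk, pow_succ, div_le_div_iff₀ (by positivity) hγ]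
    nlinarith
  · positivity

theorem fx_eq (h : Par d K γ ε) : fx d γ * (1 - γ / d) = 1 / γ := by
  have hγ := h.hγ
  have hd0 : (0 : ℝ) < d := by exact_mod_cast h.hd
  have h1 : (d : ℝ) - γ ≠ 0 := by
    have := h.hγd
    intro hc
    linarith
  unfold fx
  field_simp

/-- skipping a level -/
theorem virt (h : Par d K γ ε) {B : Finset (Fin d → ℕ)} {z : Fin d → ℕ} {A : ℕ}
    (hS : SI d K γ ε B z A) (hT : d / γ ≤ Ph K γ B z) : ∃ i, SI d K γ ε B (z + ue i) A := by
  obtain ⟨i, -, hi⟩ := step0 h B z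
  refine ⟨i, ?_⟩
  have hγ := h.hγ
  have hγd := h.hγd
  have hd0 : (0 : ℝ) < d := by exact_mod_cast h.hd
  unfold SI at *
  rw [sz_add_ue]
  push_cast
  have hN : (Nn K B z : ℝ) ≤ Nn K B (z + ue i) := by
    exact_mod_cast (Nat.le_add_right _ _).trans (Nn_step (K := K) B z i)
  have hεN := mul_le_mul_of_nonneg_left hN h.hε
  have hg1 : gn d γ ≤ d / γ - 1 := by
    unfold gn
    linarith [le_max_left (1 : ℝ) (fx d γ)]
  have hg2 : gn d γ ≤ d / γ - fx d γ := by
    unfold gn
    linarith [le_max_right (1 : ℝ) (fx d γ)]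
  have h1 : Ph K γ B z ≤ max (Ph K γ B z) (fx d γ) := le_max_left _ _
  have h2 : gn d γ ≤ (1 - γ / d) * Ph K γ B z := by
    have h3 : (1 - γ / d) * (d / γ) ≤ (1 - γ / d) * Ph K γ B z := by
      refine mul_le_mul_of_nonneg_left hT ?_
      rw [sub_nonneg, div_le_one hd0]
      linarith
    have h4 : (1 - γ / d) * (d / γ) = d / γ - 1 := by field_simp
    linarith
  have h6 : max (Ph K γ B (z + ue i)) (fx d γ) + gn d γ ≤
      Ph K γ B z + ε * ((Nn K B (z + ue i) : ℝ) - Nn K B z) := by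
    rw [← le_sub_iff_add_le]
    refine max_le ?_ ?_
    · linarith
    · have : 0 ≤ ε * ((Nn K B (z + ue i) : ℝ) - Nn K B z) := by
        rw [mul_sub]
        linarith
      linarith
  have h7 : gn d γ * ((sz z : ℝ) + 1 + 1 - A) =
      gn d γ * ((sz z : ℝ) + 1 - A) + gn d γ := by ring
  rw [h7]
  rw [mul_sub] at h6
  linarith

/-- claiming an element of the next level -/
theorem real' (h : Par d K γ ε) {B : Finset (Fin d → ℕ)} {z : Fin d → ℕ} {A : ℕ}
    (hS : SI d K γ ε B z A) (hT : Ph K γ B z < d / γ) :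
    ∃ i, z + ue i ∉ B ∧ ∀ b, SI d K γ ε (insert b B) (z + ue i) (A + 1) := by
  classical
  obtain ⟨i, hi0, hi⟩ := step0 h B z
  have hγ := h.hγ
  have hγd := h.hγd
  have hd0 : (0 : ℝ) < d := by exact_mod_cast h.hd
  have h1 : γ / d * Ph K γ B z < 1 := by
    have h2 : γ / d * Ph K γ B z < γ / d * (d / γ) := mul_lt_mul_of_pos_left hT (by positivity)
    have h3 : γ / d * (d / γ) = 1 := by field_simp
    linarith
  refine ⟨i, ?_, ?_⟩
  · intro hc
    have h2 : ph0 K γ (z + ue i) (z + ue i) = 1 := by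
      have hK := h.hK
      rw [ph0, if_pos ⟨le_rfl, by omega⟩, Nat.sub_self, pow_zero, div_one,
        show z + ue i - (z + ue i) = 0 by funext j; simp, mf_zero]
    have h3 := single_le_sum (f := fun v => ph0 K γ (z + ue i) v)
      (fun v _ => ph0_nonneg hγ _ v) hc
    simp only [h2] at h3
    linarith
  · intro b
    have hN : (Nn K B z : ℝ) ≤ Nn K B (z + ue i) := by
      exact_mod_cast (Nat.le_add_right _ _).trans (Nn_step (K := K) B z i)
    have hN2 : (Nn K B (z + ue i) : ℝ) ≤ Nn K (insert b B) (z + ue i) := by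
      exact_mod_cast Nn_mono (subset_insert b B) _
    have hεN := mul_le_mul_of_nonneg_left hN h.hε
    have hεN2 := mul_le_mul_of_nonneg_left hN2 h.hε
    have h2 : Ph K γ (insert b B) (z + ue i) ≤ Ph K γ B (z + ue i) + 1 / γ := by
      unfold Ph
      by_cases hb : b ∈ B
      · rw [insert_eq_of_mem hb]
        have : 0 ≤ 1 / γ := by positivity
        linarith
      · rw [sum_insert hb, add_comm]
        have := ph1_le_inv h (z + ue i) b
        linarith
    unfold SI at *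
    rw [sz_add_ue]
    push_cast
    have h0 : 0 ≤ 1 - γ / d := by
      rw [sub_nonneg, div_le_one hd0]
      linarith
    have h3 : fx d γ ≤ max (Ph K γ B z) (fx d γ) := le_max_right _ _
    have h3' : Ph K γ B z ≤ max (Ph K γ B z) (fx d γ) := le_max_left _ _
    have h6 : γ / d * Ph K γ B z + 1 / γ ≤ max (Ph K γ B z) (fx d γ) := by
      have h7 : γ / d * Ph K γ B z ≤ γ / d * max (Ph K γ B z) (fx d γ) :=
        mul_le_mul_of_nonneg_left h3' (by positivity)
      have h8 := mul_le_mul_of_nonneg_right h3 h0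
      rw [fx_eq h] at h8
      linarith
    have h4 : max (Ph K γ (insert b B) (z + ue i)) (fx d γ) ≤
        max (Ph K γ B z) (fx d γ) + ε * ((Nn K B (z + ue i) : ℝ) - Nn K B z) := by
      rw [mul_sub] at hi ⊢
      refine max_le ?_ ?_
      · linarith
      · linarith
    have h5 : gn d γ * ((sz z : ℝ) + 1 + 1 - (A + 1)) = gn d γ * ((sz z : ℝ) + 1 - A) := by ring
    rw [h5]
    rw [mul_sub] at h4
    linarith

/-- From `z` on, Maker claims an element or the walk reaches the top level. -/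
theorem reach (h : Par d K γ ε) {B : Finset (Fin d → ℕ)} {A n : ℕ} (k : ℕ) :
    ∀ z : Fin d → ℕ, sz z + k = n → SI d K γ ε B z A →
      (∃ y, z ≤ y ∧ z ≠ y ∧ sz y ≤ n ∧ y ∉ B ∧ ∀ b, SI d K γ ε (insert b B) y (A + 1)) ∨
        ∃ z', sz z' = n ∧ SI d K γ ε B z' A := by
  have hle : ∀ (z : Fin d → ℕ) (i : Fin d), z ≤ z + ue i := fun z i j => Nat.le_add_right _ _
  have hne : ∀ (z : Fin d → ℕ) (i : Fin d), z ≠ z + ue i := fun z i hc => by
    have := congrArg sz hc
    rw [sz_add_ue] at this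
    omega
  induction k with
  | zero => exact fun z hz hS => Or.inr ⟨z, by omega, hS⟩
  | succ k ih =>
    intro z hz hS
    by_cases hT : Ph K γ B z < d / γ
    · obtain ⟨i, h1, h2⟩ := real' h hS hT
      exact Or.inl ⟨z + ue i, hle z i, hne z i, by rw [sz_add_ue]; omega, h1, h2⟩
    · obtain ⟨i, hi⟩ := virt h hS (not_lt.1 hT)
      rcases ih (z + ue i) (by rw [sz_add_ue]; omega) hi with ⟨y, h1, h2, h3, h4, h5⟩ | h1
      · refine Or.inl ⟨y, (hle z i).trans h1, ?_, h3, h4, h5⟩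
        rintro rfl
        exact hne z i (le_antisymm (hle z i) h1)
      · exact Or.inr h1

theorem inv_le_fx (h : Par d K γ ε) : 1 / γ ≤ fx d γ := by
  have hγ := h.hγ
  have hγd := h.hγd
  have hd0 : (0 : ℝ) < d := by exact_mod_cast h.hd
  have h1 := fx_eq h
  have h2 : 0 < 1 - γ / d := by
    rw [sub_pos, div_lt_one hd0]
    linarith
  have h3 : 0 < γ / d := by positivity
  have h4 : 0 ≤ fx d γ := by
    unfold fx
    exact div_nonneg hd0.le (mul_nonneg hγ.le (by linarith))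
  rw [← h1]
  nlinarith

theorem gn_pos (h : Par d K γ ε) : 0 < gn d γ := by
  have hγ := h.hγ
  have hγd := h.hγd
  have hd0 : (0 : ℝ) < d := by exact_mod_cast h.hd
  unfold gn
  rw [sub_pos]
  refine max_lt ?_ ?_
  · rw [lt_div_iff₀ hγ]
    linarith
  · unfold fx
    exact div_lt_div_of_pos_left hd0 hγ (by nlinarith)

/-- the start -/
theorem start (h : Par d K γ ε) (b : Fin d → ℕ) :
    SI d K γ ε (insert b ∅) 0 1 := by
  have hγ := h.hγ
  unfold SI
  have h1 : Ph K γ (insert b ∅) (0 : Fin d → ℕ) ≤ 1 / γ := by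
    rw [Ph, insert_empty_eq, sum_singleton]
    exact ph1_le_inv h 0 b
  have h2 : max (Ph K γ (insert b ∅) (0 : Fin d → ℕ)) (fx d γ) = fx d γ :=
    max_eq_right (h1.trans (inv_le_fx h))
  rw [h2]
  have h3 : 0 ≤ ε * (Nn K (insert b ∅) (0 : Fin d → ℕ) : ℝ) := mul_nonneg h.hε (by positivity)
  simp only [sz, Pi.zero_apply, sum_const_zero, Nat.cast_zero, Nat.cast_one]
  linarith

end Pool.Agent.J6H80.SG
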